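import Pool.Agent.helper70.BND.SpecH

/-!
# Project bnd, block H, row MKL: the levels
-/

set_option autoImplicit false

namespace Pool.Agent.BND.EX

open scoped Topology
open Finset

theorem MKL_l_h (A : LD) (e : ℕ) : A.l.h e = if e < A.n then A.h e else ((Wd A.n A.c e false).map A.h).sum := rfl

theorem MKL_W1 (n : ℕ) (c : ℕ → ℕ → ℤ) (e : ℕ) (b : Bool) (h : e < n) : Wd n c e b = [e] := if_pos h

theorem MKL_W2 (n : ℕ) (c : ℕ → ℕ → ℤ) (e : ℕ) (b : Bool) (h : ¬ e < n) (h2 : e < n + n * n) :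
    Wd n c e b = if b then [(e - n) % n, (e - n) / n] else [(e - n) / n, (e - n) % n] := by
  unfold Wd
  rw [if_neg h, if_pos h2]

theorem MKL_W3 (n : ℕ) (c : ℕ → ℕ → ℤ) (e : ℕ) (b : Bool) (h : ¬ e < n) (h2 : ¬ e < n + n * n) :
    Wd n c e b = wd n fun v => if b then (c (e - (n + n * n)) v).toNat else (-(c (e - (n + n * n)) v)).toNat := by
  unfold Wd
  rw [if_neg h, if_neg h2]

theorem MKL_dm (n e : ℕ) (h2 : e < n + n * n) (h0 : 0 < n) :
    (e - n) / n < n ∧ (e - n) % n < n := by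
  constructor
  · apply Nat.div_lt_of_lt_mul
    have : 0 < n * n := Nat.mul_pos h0 h0
    omega
  · exact Nat.mod_lt _ h0

theorem MKL_mem (hWDC : WDC_stmt) (n : ℕ) (c : ℕ → ℕ → ℤ) (h0 : 0 < n) (e : ℕ) (b : Bool) :
    ∀ v ∈ Wd n c e b, v < n := by
  intro v hv
  by_cases h1 : e < n
  · rw [MKL_W1 n c e b h1, List.mem_singleton] at hv
    rw [hv]
    exact h1
  · by_cases h2 : e < n + n * n
    · rw [MKL_W2 n c e b h1 h2] at hv
      obtain ⟨h3, h4⟩ := MKL_dm n e h2 h0
      cases b with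
      | false =>
        simp only [Bool.false_eq_true, if_false, List.mem_cons, List.not_mem_nil, or_false] at hv
        rcases hv with rfl | rfl
        · exact h3
        · exact h4
      | true =>
        simp only [if_true, List.mem_cons, List.not_mem_nil, or_false] at hv
        rcases hv with rfl | rfl
        · exact h4
        · exact h3
    · rw [MKL_W3 n c e b h1 h2] at hv
      exact (hWDC n _).2.1 v hv

theorem MKL_bal (A : LD) (hA : A.Gl) (j : ℕ) (hj : j < A.k) :
    ∑ v ∈ range A.n, (A.c j v).toNat * A.h v = ∑ v ∈ range A.n, (-(A.c j v)).toNat * A.h v := by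
  have h := hA.ort j hj
  have h1 : (∑ v ∈ range A.n, ((A.c j v).toNat : ℤ) * A.h v) -
      ∑ v ∈ range A.n, ((-(A.c j v)).toNat : ℤ) * A.h v = 0 := by
    rw [← Finset.sum_sub_distrib, ← h]
    refine Finset.sum_congr rfl fun v _ => ?_
    have h2 : ((A.c j v).toNat : ℤ) - ((-(A.c j v)).toNat : ℤ) = A.c j v := by omega
    rw [← sub_mul, h2]
  have h3 : ((∑ v ∈ range A.n, (A.c j v).toNat * A.h v : ℕ) : ℤ) =
      ((∑ v ∈ range A.n, (-(A.c j v)).toNat * A.h v : ℕ) : ℤ) := by
    push_cast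
    exact sub_eq_zero.1 h1
  exact_mod_cast h3

theorem MKL_sum (hWDC : WDC_stmt) (A : LD) (j : ℕ) (b : Bool) :
    ((wd A.n fun v => if b then (A.c j v).toNat else (-(A.c j v)).toNat).map A.h).sum =
      if b then ∑ v ∈ range A.n, (A.c j v).toNat * A.h v else ∑ v ∈ range A.n, (-(A.c j v)).toNat * A.h v := by
  rw [(hWDC A.n _).2.2 ℕ A.h]
  cases b with
  | false => simp
  | true => simp

theorem MKL_maph (A : LD) (u : List ℕ) (hu : ∀ v ∈ u, v < A.n) : u.map A.l.h = u.map A.h := by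
  refine List.map_congr_left fun v hv => ?_
  rw [MKL_l_h, if_pos (hu v hv)]

theorem MKL_ht (hWDC : WDC_stmt) (A : LD) (hA : A.Gl) (e : ℕ) (he : e < A.l.N) (b : Bool) :
    ((Wd A.n A.c e b).map A.l.h).sum = A.l.h e := by
  rw [MKL_maph A _ (MKL_mem hWDC A.n A.c hA.n0 e b)]
  by_cases h1 : e < A.n
  · rw [MKL_W1 _ _ _ _ h1, MKL_l_h, if_pos h1]
    simp
  · rw [MKL_l_h, if_neg h1]
    by_cases h2 : e < A.n + A.n * A.n
    · rw [MKL_W2 _ _ _ _ h1 h2, MKL_W2 _ _ _ _ h1 h2]
      cases b with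
      | false => rfl
      | true => simp [add_comm]
    · have hj : e - (A.n + A.n * A.n) < A.k := by
        have : e < A.n + A.n * A.n + A.k := he
        omega
      rw [MKL_W3 _ _ _ _ h1 h2, MKL_W3 _ _ _ _ h1 h2, MKL_sum hWDC, MKL_sum hWDC]
      cases b with
      | false => rfl
      | true => simpa using MKL_bal A hA _ hj

theorem MKL_pos (hWDC : WDC_stmt) (A : LD) (hA : A.Gl) (e : ℕ) (he : e < A.l.N) : 0 < A.l.h e := by
  by_cases h1 : e < A.n
  · rw [MKL_l_h, if_pos h1]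
    exact hA.pos e h1
  · rw [MKL_l_h, if_neg h1]
    by_cases h2 : e < A.n + A.n * A.n
    · rw [MKL_W2 _ _ _ _ h1 h2]
      obtain ⟨h3, h4⟩ := MKL_dm A.n e h2 hA.n0
      have h5 := hA.pos _ h3
      simp only [Bool.false_eq_true, if_false, List.map_cons, List.map_nil, List.sum_cons, List.sum_nil]
      omega
    · have hj : e - (A.n + A.n * A.n) < A.k := by
        have : e < A.n + A.n * A.n + A.k := he
        omega
      rw [MKL_W3 _ _ _ _ h1 h2, MKL_sum hWDC]
      simp only [Bool.false_eq_true, if_false]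
      set j := e - (A.n + A.n * A.n) with hjd
      rw [Nat.pos_iff_ne_zero]
      intro h0
      have h3 := MKL_bal A hA j hj
      rw [h0] at h3
      rw [Finset.sum_eq_zero_iff] at h0 h3
      obtain ⟨v, hv, hne⟩ := hA.ne j hj
      have h4 := h0 v (Finset.mem_range.2 hv)
      have h5 := h3 v (Finset.mem_range.2 hv)
      have h6 := hA.pos v hv
      rw [Nat.mul_eq_zero] at h4 h5
      omega

theorem MKL_ne (hWDC : WDC_stmt) (A : LD) (hA : A.Gl) (e : ℕ) (he : e < A.l.N) (b : Bool) :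
    Wd A.n A.c e b ≠ [] := by
  intro h
  have h1 := MKL_ht hWDC A hA e he b
  rw [h] at h1
  have h2 := MKL_pos hWDC A hA e he
  rw [← h1] at h2
  simp at h2

theorem MKL_cb (n a b : ℕ) (ha : a < n) (hb : b < n) :
    n ≤ n + (a * n + b) ∧ n + (a * n + b) < n + n * n ∧ (n + (a * n + b) - n) / n = a ∧
      (n + (a * n + b) - n) % n = b := by
  have h0 : 0 < n := by omega
  have h1 : a * n + b < n * n := by
    calc a * n + b < a * n + n := by omega
      _ = (a + 1) * n := by ring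
      _ ≤ n * n := Nat.mul_le_mul_right _ ha
  refine ⟨by omega, by omega, ?_, ?_⟩
  · rw [Nat.add_sub_cancel_left, Nat.mul_comm, Nat.mul_add_div h0, Nat.div_eq_of_lt hb, Nat.add_zero]
  · rw [Nat.add_sub_cancel_left, Nat.mul_comm, Nat.mul_add_mod, Nat.mod_eq_of_lt hb]

theorem MKL (hWDC : WDC_stmt) : MKL_stmt := by
  intro A hA
  have hN : A.l.N = A.n + A.n * A.n + A.k := rfl
  refine ⟨⟨hA.n0, ?_, MKL_pos hWDC A hA, ?_, ?_, ?_⟩, ?_, ?_, ?_, ?_, ?_, ?_⟩
  · show A.n ≤ A.n + A.n * A.n + A.k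
    omega
  · intro e he b
    exact MKL_W1 _ _ _ _ he
  · intro e _ b v hv
    exact MKL_mem hWDC A.n A.c hA.n0 e b v hv
  · intro e he b
    exact MKL_ht hWDC A hA e he b
  · intro v hv
    rw [MKL_l_h, if_pos hv]
  · intro m hm e he
    have hne := MKL_ne hWDC A hA e he false
    have hht := MKL_ht hWDC A hA e he false
    have hmem := MKL_mem hWDC A.n A.c hA.n0 e false
    rw [MKL_maph A _ hmem] at hht
    rw [← hht]
    cases hw : Wd A.n A.c e false with
    | nil => exact absurd hw hne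
    | cons v u =>
      rw [hw] at hmem
      have h1 := hm v (hmem v List.mem_cons_self)
      rw [List.map_cons, List.sum_cons]
      omega
  · intro a b ha hb
    obtain ⟨h1, h2, h3, h4⟩ := MKL_cb A.n a b ha hb
    refine ⟨h1, h2, h3, h4, ?_, ?_⟩
    · show Wd A.n A.c (A.n + (a * A.n + b)) false = [a, b]
      rw [MKL_W2 _ _ _ _ (not_lt.2 h1) h2, h3, h4]
      simp
    · show Wd A.n A.c (A.n + (a * A.n + b)) true = [b, a]
      rw [MKL_W2 _ _ _ _ (not_lt.2 h1) h2, h3, h4]
      simp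
  · intro e he1 he2
    obtain ⟨h3, h4⟩ := MKL_dm A.n e he2 hA.n0
    refine ⟨(e - A.n) / A.n, (e - A.n) % A.n, h3, h4, ?_⟩
    show e = A.n + ((e - A.n) / A.n * A.n + (e - A.n) % A.n)
    rw [Nat.div_add_mod']
    omega
  · intro e b he
    exact MKL_ne hWDC A hA e he b
  · intro j hj
    refine ⟨?_, fun v hv => ?_⟩
    · show A.n + A.n * A.n + j < A.n + A.n * A.n + A.k
      omega
    · have h1 : ¬ A.gb j < A.n := by
        show ¬ A.n + A.n * A.n + j < A.n
        omega
      have h2 : ¬ A.gb j < A.n + A.n * A.n := by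
        show ¬ A.n + A.n * A.n + j < A.n + A.n * A.n
        omega
      have h3 : A.gb j - (A.n + A.n * A.n) = j := by
        show A.n + A.n * A.n + j - (A.n + A.n * A.n) = j
        omega
      constructor
      · show (Wd A.n A.c (A.gb j) false).count v = _
        rw [MKL_W3 _ _ _ _ h1 h2, h3, (hWDC A.n _).1 v, if_pos hv]
        simp
      · show (Wd A.n A.c (A.gb j) true).count v = _
        rw [MKL_W3 _ _ _ _ h1 h2, h3, (hWDC A.n _).1 v, if_pos hv]
        simp

end Pool.Agent.BND.EX
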